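import Mathlib

/-!
Coset graphs: a finite group `G` with two subgroups `A`, `B` meeting trivially gives a bipartite
graph whose closed walks are alternating words in `A` and `B`.
-/

namespace H41EC

open SimpleGraph

/-- The alternating word `a 0 * b 0 * a 1 * b 1 * ... * a (n-1) * b (n-1)`. -/
def wd {G : Type*} [Monoid G] (a b : ℕ → G) : ℕ → G
  | 0 => 1
  | n + 1 => wd a b n * (a n * b n)

theorem map_wd {G H : Type*} [Monoid G] [Monoid H] (f : G →* H) (a b : ℕ → G) (n : ℕ) :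
    f (wd a b n) = wd (fun i => f (a i)) (fun i => f (b i)) n := by
  induction n with
  | zero => simp [wd]
  | succ n ih => simp [wd, ih]

theorem wd_congr {G : Type*} [Monoid G] {a b a' b' : ℕ → G} (n : ℕ)
    (ha : ∀ i, i < n → a i = a' i) (hb : ∀ i, i < n → b i = b' i) :
    wd a b n = wd a' b' n := by
  induction n with
  | zero => rfl
  | succ n ih =>
    simp only [wd]
    rw [ih (fun i hi => ha i (by omega)) (fun i hi => hb i (by omega)), ha n (by omega),
      hb n (by omega)]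

theorem wd_telescope {G : Type*} [Group G] (g : ℕ → G) (n : ℕ) :
    wd (fun i => (g (2 * i))⁻¹ * g (2 * i + 1)) (fun i => (g (2 * i + 1))⁻¹ * g (2 * i + 2)) n
      = (g 0)⁻¹ * g (2 * n) := by
  induction n with
  | zero => simp [wd]
  | succ n ih =>
    simp only [wd]
    rw [ih]
    have : 2 * (n + 1) = 2 * n + 2 := by ring
    rw [this]
    group

/-- The graph attached to two maps `p r : G → W`: `p g` is joined to `r g`. -/
def cg {G W : Type*} (p r : G → W) (h : ∀ g g', p g ≠ r g') : SimpleGraph W where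
  Adj u v := ∃ g, (u = p g ∧ v = r g) ∨ (u = r g ∧ v = p g)
  symm := by
    constructor
    rintro u v ⟨g, hg | hg⟩
    · exact ⟨g, Or.inr ⟨hg.2, hg.1⟩⟩
    · exact ⟨g, Or.inl ⟨hg.2, hg.1⟩⟩
  loopless := by
    constructor
    rintro u ⟨g, hg | hg⟩
    · exact h g g (hg.1.symm.trans hg.2)
    · exact h g g (hg.2.symm.trans hg.1)

section

variable {G W : Type*} [Group G] {p r : G → W} {A B : Subgroup G}

/-- A periodic alternating sequence gives a trivial alternating word. -/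
theorem word_of_seq (hpr : ∀ g g', p g ≠ r g') (hp : ∀ g h, p g = p h → g⁻¹ * h ∈ B)
    (hr : ∀ g h, r g = r h → g⁻¹ * h ∈ A)
    (v : ℕ → W) (g : ℕ → G) (j : ℕ)
    (hadj : ∀ i, (v i = p (g i) ∧ v (i + 1) = r (g i)) ∨ (v i = r (g i) ∧ v (i + 1) = p (g i)))
    (hne : ∀ i, v i ≠ v (i + 2)) (hper : g (2 * j) = g 0) (h0 : v 0 = p (g 0)) :
    ∃ a b : ℕ → G, (∀ i, a i ∈ A ∧ a i ≠ 1) ∧ (∀ i, b i ∈ B ∧ b i ≠ 1) ∧ wd a b j = 1 := by
  have key : ∀ i, v (2 * i) = p (g (2 * i)) ∧ v (2 * i + 1) = r (g (2 * i)) ∧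
      v (2 * i + 1) = r (g (2 * i + 1)) ∧ v (2 * i + 2) = p (g (2 * i + 1)) := by
    intro i
    induction i with
    | zero =>
      have h1 : v 1 = r (g 0) := by
        rcases hadj 0 with h | h
        · exact h.2
        · exact absurd (h0.symm.trans h.1) (hpr _ _)
      refine ⟨h0, h1, ?_⟩
      rcases hadj 1 with h | h
      · exact absurd (h.1.symm.trans h1) (hpr _ _)
      · exact ⟨h.1, h.2⟩
    | succ i ih =>
      obtain ⟨_, _, _, h4⟩ := ih
      have e : 2 * (i + 1) = 2 * i + 2 := by ring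
      rw [e]
      have h5 : v (2 * i + 2) = p (g (2 * i + 2)) ∧ v (2 * i + 2 + 1) = r (g (2 * i + 2)) := by
        rcases hadj (2 * i + 2) with h | h
        · exact h
        · exact absurd (h4.symm.trans h.1) (hpr _ _)
      have h6 : v (2 * i + 2 + 1) = r (g (2 * i + 2 + 1)) ∧
          v (2 * i + 2 + 1 + 1) = p (g (2 * i + 2 + 1)) := by
        rcases hadj (2 * i + 2 + 1) with h | h
        · exact absurd (h.1.symm.trans h5.2) (hpr _ _)
        · exact h
      exact ⟨h5.1, h5.2, h6.1, h6.2⟩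
  refine ⟨fun i => (g (2 * i))⁻¹ * g (2 * i + 1), fun i => (g (2 * i + 1))⁻¹ * g (2 * i + 2),
    ?_, ?_, ?_⟩
  · intro i
    obtain ⟨k1, k2, k3, k4⟩ := key i
    refine ⟨hr _ _ (k2.symm.trans k3), ?_⟩
    intro h
    have e : g (2 * i) = g (2 * i + 1) := by
      simpa using (inv_mul_eq_one.mp h)
    exact hne (2 * i) (k1.trans ((congrArg p e).trans k4.symm))
  · intro i
    obtain ⟨k1, k2, k3, k4⟩ := key i
    obtain ⟨l1, l2, l3, l4⟩ := key (i + 1)
    have e' : 2 * (i + 1) = 2 * i + 2 := by ring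
    rw [e'] at l1 l2
    refine ⟨hp _ _ (k4.symm.trans l1), ?_⟩
    intro h
    have e : g (2 * i + 1) = g (2 * i + 2) := by
      simpa using (inv_mul_eq_one.mp h)
    exact hne (2 * i + 1) (k3.trans ((congrArg r e).trans l2.symm))
  · rw [wd_telescope, hper]
    group

theorem cg_free (hpr : ∀ g g', p g ≠ r g') (hp : ∀ g h, p g = p h → g⁻¹ * h ∈ B)
    (hr : ∀ g h, r g = r h → g⁻¹ * h ∈ A) (j : ℕ) (hj : 2 ≤ j)
    (hw : ∀ a b : ℕ → G, (∀ i, a i ∈ A ∧ a i ≠ 1) → (∀ i, b i ∈ B ∧ b i ≠ 1) → wd a b j ≠ 1) :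
    (cycleGraph (2 * j)).Free (cg p r hpr) := by
  rintro ⟨f⟩
  obtain ⟨m, hm⟩ : ∃ m, 2 * j = m + 1 + 1 + 1 := ⟨2 * j - 3, by omega⟩
  have hz : NeZero (2 * j) := ⟨by omega⟩
  -- the cyclic sequence of vertices
  have hstep : ∀ i : Fin (2 * j), (cg p r hpr).Adj (f i) (f (i + 1)) := by
    intro i
    apply f.toHom.map_adj
    rw [cycleGraph_adj']
    right
    have h1 : ((i + 1 - i : Fin (2 * j)) : ℕ) = 1 := by
      have : (i + 1 - i : Fin (2 * j)) = 1 := add_sub_cancel_left i 1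
      rw [this]
      have : 1 % (2 * j) = 1 := Nat.mod_eq_of_lt (by omega)
      simpa [Fin.val_one'] using this
    exact h1
  choose G0 hG0 using hstep
  let v : ℕ → W := fun i => f (Fin.ofNat (2 * j) i)
  let g : ℕ → G := fun i => G0 (Fin.ofNat (2 * j) i)
  have hsucc : ∀ i : ℕ, (Fin.ofNat (2 * j) i + 1 : Fin (2 * j)) = Fin.ofNat (2 * j) (i + 1) := by
    intro i
    apply Fin.ext
    rw [Fin.val_add]
    simp [Fin.ofNat]
  have hadj : ∀ i, (v i = p (g i) ∧ v (i + 1) = r (g i)) ∨ (v i = r (g i) ∧ v (i + 1) = p (g i)) := by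
    intro i
    have := hG0 (Fin.ofNat (2 * j) i)
    rw [hsucc] at this
    exact this
  have hne : ∀ i, v i ≠ v (i + 2) := by
    intro i h
    have h2 := f.injective h
    have h3 : i % (2 * j) = (i + 2) % (2 * j) := by
      have := congrArg Fin.val h2
      simpa [Fin.ofNat] using this
    have h4 : (i + 2 - i) % (2 * j) = 0 := Nat.sub_mod_eq_zero_of_mod_eq h3.symm
    rw [Nat.add_sub_cancel_left, Nat.mod_eq_of_lt (by omega)] at h4
    omega
  have hper : ∀ i, g (i + 2 * j) = g i := by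
    intro i
    have : Fin.ofNat (2 * j) (i + 2 * j) = Fin.ofNat (2 * j) i := by
      apply Fin.ext
      simp [Fin.ofNat]
    simp only [g, this]
  rcases hadj 0 with h | h
  · obtain ⟨a, b, ha, hb, hab⟩ := word_of_seq hpr hp hr v g j hadj hne
      (by simpa using hper 0) h.1
    exact hw a b ha hb hab
  · have h1 : v 1 = p (g 1) := by
      rcases hadj 1 with h' | h'
      · exact h'.1
      · exact absurd (h.2.symm.trans h'.1) (hpr _ _)
    obtain ⟨a, b, ha, hb, hab⟩ := word_of_seq hpr hp hr (fun i => v (i + 1)) (fun i => g (i + 1)) j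
      (fun i => hadj (i + 1)) (fun i => hne (i + 1))
      (by
        have := hper 1
        show g (2 * j + 1) = g (0 + 1)
        rw [show 2 * j + 1 = 1 + 2 * j by ring, this])
      (by simpa using h1)
    exact hw a b ha hb hab

theorem cg_edges [Finite W] [Finite G] (hpr : ∀ g g', p g ≠ r g')
    (hp : ∀ g h, p g = p h → g⁻¹ * h ∈ B)
    (hr : ∀ g h, r g = r h → g⁻¹ * h ∈ A) (hAB : A ⊓ B = ⊥) :
    Nat.card G ≤ (cg p r hpr).edgeSet.ncard := by
  have hinj : Function.Injective (fun g : G => (⟨s(p g, r g), by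
      rw [SimpleGraph.mem_edgeSet]
      exact ⟨g, Or.inl ⟨rfl, rfl⟩⟩⟩ : (cg p r hpr).edgeSet)) := by
    intro g h hgh
    have h1 : s(p g, r g) = s(p h, r h) := congrArg Subtype.val hgh
    rw [Sym2.eq_iff] at h1
    rcases h1 with h1 | h1
    · have : g⁻¹ * h ∈ A ⊓ B := ⟨hr _ _ h1.2, hp _ _ h1.1⟩
      rw [hAB, Subgroup.mem_bot] at this
      exact inv_mul_eq_one.mp this
    · exact absurd h1.1 (hpr _ _)
  have := Nat.card_le_card_of_injective _ hinj
  simpa [Set.ncard] using this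

end

/-- The coset graph, on `Fin n`. -/
theorem coset_graph {G : Type*} [Group G] [Finite G] (A B : Subgroup G) (q : ℕ)
    (hA : Nat.card A = q) (hB : Nat.card B = q) (hAB : A ⊓ B = ⊥) (S : Set ℕ)
    (hS : ∀ j ∈ S, 2 ≤ j)
    (hw : ∀ j ∈ S, ∀ a b : ℕ → G, (∀ i, a i ∈ A ∧ a i ≠ 1) → (∀ i, b i ∈ B ∧ b i ≠ 1) →
      wd a b j ≠ 1) (n : ℕ) (hn : 2 * Nat.card G ≤ n * q) :
    ∃ Γ : SimpleGraph (Fin n), (∀ j ∈ S, (cycleGraph (2 * j)).Free Γ) ∧
      Nat.card G ≤ Γ.edgeSet.ncard := by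
  classical
  have hq : 0 < q := by rw [← hA]; exact Nat.card_pos
  have cA := Subgroup.card_eq_card_quotient_mul_card_subgroup A
  have cB := Subgroup.card_eq_card_quotient_mul_card_subgroup B
  rw [hA] at cA
  rw [hB] at cB
  have hcard : Nat.card ((G ⧸ B) ⊕ (G ⧸ A)) ≤ Nat.card (Fin n) := by
    rw [Nat.card_sum, Nat.card_fin]
    have h1 : (Nat.card (G ⧸ B) + Nat.card (G ⧸ A)) * q ≤ n * q := by
      calc (Nat.card (G ⧸ B) + Nat.card (G ⧸ A)) * q = 2 * Nat.card G := by
            rw [add_mul, ← cA, ← cB]; ring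
        _ ≤ n * q := hn
    exact Nat.le_of_mul_le_mul_right h1 hq
  obtain ⟨e⟩ : Nonempty (((G ⧸ B) ⊕ (G ⧸ A)) ↪ Fin n) := by
    have : Fintype ((G ⧸ B) ⊕ (G ⧸ A)) := Fintype.ofFinite _
    apply Function.Embedding.nonempty_of_card_le
    simpa [Nat.card_eq_fintype_card] using hcard
  have hp : ∀ g h : G, e (Sum.inl (QuotientGroup.mk g)) = e (Sum.inl (QuotientGroup.mk h)) →
      g⁻¹ * h ∈ B := by
    intro g h hgh
    have := e.injective hgh
    exact QuotientGroup.eq.mp (Sum.inl_injective this)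
  have hr : ∀ g h : G, e (Sum.inr (QuotientGroup.mk g)) = e (Sum.inr (QuotientGroup.mk h)) →
      g⁻¹ * h ∈ A := by
    intro g h hgh
    have := e.injective hgh
    exact QuotientGroup.eq.mp (Sum.inr_injective this)
  have hpr : ∀ g h : G, e (Sum.inl (QuotientGroup.mk g)) ≠ e (Sum.inr (QuotientGroup.mk h)) := by
    intro g h hgh
    exact absurd (e.injective hgh) Sum.inl_ne_inr
  refine ⟨cg (fun g : G => e (Sum.inl (QuotientGroup.mk g)))
    (fun g : G => e (Sum.inr (QuotientGroup.mk g))) hpr, ?_, ?_⟩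
  · intro j hj
    exact cg_free hpr hp hr j (hS j hj) (hw j hj)
  · exact cg_edges hpr hp hr hAB

end H41EC
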