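import Pool.Agent.H41.EC.Graph

/-!
Numerics.
-/

namespace H41EC

open SimpleGraph

set_option maxHeartbeats 400000

/-- The field with `9 ^ r` elements. -/
theorem field_exists (r : ℕ) (hr : 1 ≤ r) : ∃ (F : Type) (_ : Field F) (_ : Finite F) (ζ : F),
    (2 : F) ≠ 0 ∧ IsPrimitiveRoot ζ 8 ∧ ζ ^ 4 = -1 ∧ Nat.card F = 9 ^ r := by
  have : Fact (Nat.Prime 3) := ⟨by norm_num⟩
  let F := GaloisField 3 (2 * r)
  have : Finite F := Module.finite_of_finite (ZMod 3)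
  have hcard : Nat.card F = 9 ^ r := by
    rw [GaloisField.card 3 (2 * r) (by omega), pow_mul]
    norm_num
  have hcard' : Nat.card Fˣ = 9 ^ r - 1 := by
    rw [Nat.card_units, hcard]
  have h8 : 8 ∣ Nat.card Fˣ := by
    rw [hcard']
    have := Nat.sub_dvd_pow_sub_pow 9 1 r
    simpa using this
  obtain ⟨g, hg⟩ := IsCyclic.exists_generator (α := Fˣ)
  have ho : orderOf g = Nat.card Fˣ := orderOf_eq_card_of_forall_mem_zpowers hg
  obtain ⟨c, hc⟩ := h8
  have hpos : 0 < Nat.card Fˣ := Nat.card_pos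
  have hp : IsPrimitiveRoot (g ^ c) 8 := by
    have := (IsPrimitiveRoot.orderOf g).pow (by rw [ho]; exact hpos)
      (show orderOf g = c * 8 by rw [ho, hc]; ring)
    exact this
  have hp' : IsPrimitiveRoot ((g ^ c : Fˣ) : F) 8 := IsPrimitiveRoot.coe_units_iff.mpr hp
  refine ⟨F, inferInstance, inferInstance, ((g ^ c : Fˣ) : F), ?_, hp', ?_, hcard⟩
  · intro h
    have h3 : (3 : F) = 0 := CharP.cast_eq_zero F 3
    have : (1 : F) = 0 := by linear_combination h3 - h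
    exact one_ne_zero this
  · have h8 := hp'.pow_eq_one
    set z := ((g ^ c : Fˣ) : F)
    have h1 : (z ^ 4 - 1) * (z ^ 4 + 1) = 0 := by linear_combination h8
    rcases mul_eq_zero.mp h1 with h | h
    · exact absurd (sub_eq_zero.mp h) (hp'.pow_ne_one_of_pos_of_lt (by norm_num) (by norm_num))
    · linear_combination h

theorem main (l : ℕ) (hl : 3 ≤ l) (n : ℕ) (hn : 2 * 9 ^ (4 * l / 3 - 1) ≤ n) :
    ∃ Γ : SimpleGraph (Fin n),
      (∀ j, Odd j → 3 ≤ j → j ≤ l → (cycleGraph (2 * j)).Free Γ) ∧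
      (1 / 72 : ℝ) * (n : ℝ) ^ (1 + 1 / ((4 * l / 3 - 1 : ℕ) : ℝ)) ≤ Γ.edgeSet.ncard := by
  set k := 4 * l / 3 - 1 with hk
  have hk3 : 3 ≤ k := by omega
  have hk1 : 4 * l / 3 = k + 1 := by omega
  -- choice of `r`
  obtain ⟨r, hr1, hr2, hr3⟩ : ∃ r, 1 ≤ r ∧ 2 * (9 ^ r) ^ k ≤ n ∧ n < 2 * (9 * 9 ^ r) ^ k := by
    have h1 : 1 < 9 ^ k := Nat.one_lt_pow (by omega) (by norm_num)
    have h2 : n / 2 ≠ 0 := by
      have : 2 ≤ n := le_trans (by have := Nat.one_le_pow k 9 (by norm_num); omega) hn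
      omega
    refine ⟨Nat.log (9 ^ k) (n / 2), ?_, ?_, ?_⟩
    · apply (Nat.le_log_iff_pow_le h1 h2).mpr
      rw [pow_one]
      omega
    · have := Nat.pow_log_le_self (9 ^ k) h2
      rw [← pow_mul, mul_comm k, pow_mul] at this
      omega
    · have := Nat.lt_pow_succ_log_self h1 (n / 2)
      rw [pow_succ, ← pow_mul, mul_comm k, pow_mul, mul_comm, ← mul_pow] at this
      omega
  obtain ⟨F, _, _, ζ, h2, hζ, h4, hq⟩ := field_exists r hr1
  obtain ⟨g0, hg1, hg2, hgr⟩ := graph_F h2 hζ h4 l hl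
  rw [hq, hk1] at hg2
  rw [hq] at hgr
  set q := 9 ^ r with hqdef
  have hq0 : 0 < q := by positivity
  -- the number of copies
  set m := n * q / (2 * g0) with hm
  have hnq : 2 * g0 ≤ n * q := by
    calc 2 * g0 ≤ 2 * q ^ (k + 1) := by omega
      _ = (2 * q ^ k) * q := by ring
      _ ≤ n * q := Nat.mul_le_mul_right _ hr2
  have hm1 : 1 ≤ m := (Nat.one_le_div_iff (by omega)).mpr hnq
  have hm2 : 2 * (g0 * m) ≤ n * q := by
    have := Nat.div_mul_le_self (n * q) (2 * g0)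
    calc 2 * (g0 * m) = n * q / (2 * g0) * (2 * g0) := by rw [hm]; ring
      _ ≤ n * q := this
  obtain ⟨Γ, hfree, hedge⟩ := hgr m n hm1 hm2
  refine ⟨Γ, fun j h1 h3 h5 => hfree j ⟨h1, h3, h5⟩, ?_⟩
  -- numerics
  have hm3 : n * q < 2 * g0 * (m + 1) := by
    have := Nat.lt_mul_div_succ (n * q) (show 0 < 2 * g0 by omega)
    simpa [hm] using this
  have hm4 : n * q ≤ 4 * (g0 * m) := by
    have : 2 * g0 * (m + 1) ≤ 2 * g0 * (2 * m) := Nat.mul_le_mul_left _ (by omega)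
    calc n * q ≤ 2 * g0 * (m + 1) := hm3.le
      _ ≤ 2 * g0 * (2 * m) := this
      _ = 4 * (g0 * m) := by ring
  have hm5 : (n : ℝ) * q ≤ 4 * Γ.edgeSet.ncard := by
    have : n * q ≤ 4 * Γ.edgeSet.ncard := hm4.trans (Nat.mul_le_mul_left _ hedge)
    exact_mod_cast this
  have hn0 : (0 : ℝ) < n := by
    have : 0 < n := lt_of_lt_of_le (by positivity) hn
    exact_mod_cast this
  have hkR : (0 : ℝ) < k := by exact_mod_cast (show 0 < k by omega)
  -- `n ^ (1/k) ≤ 18 q`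
  have h6 : (n : ℝ) ^ (1 / (k : ℝ)) ≤ 18 * q := by
    have h7 : (n : ℝ) ≤ (18 * q : ℝ) ^ k := by
      have h8 : (n : ℝ) ≤ 2 * (9 * q) ^ k := by exact_mod_cast hr3.le
      have h9 : (2 : ℝ) ≤ 2 ^ k := by
        calc (2 : ℝ) = 2 ^ 1 := by norm_num
          _ ≤ 2 ^ k := pow_le_pow_right₀ (by norm_num) (by omega)
      calc (n : ℝ) ≤ 2 * (9 * q) ^ k := h8
        _ ≤ 2 ^ k * (9 * q) ^ k := by gcongr
        _ = (18 * q : ℝ) ^ k := by rw [← mul_pow]; ring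
    calc (n : ℝ) ^ (1 / (k : ℝ)) ≤ ((18 * q : ℝ) ^ k) ^ (1 / (k : ℝ)) := by
          apply Real.rpow_le_rpow hn0.le h7
          positivity
      _ = 18 * q := by
          rw [one_div, Real.pow_rpow_inv_natCast (by positivity) (by omega)]
  rw [Real.rpow_add hn0, Real.rpow_one]
  have h9 : (n : ℝ) * (n : ℝ) ^ (1 / (k : ℝ)) ≤ n * (18 * q) := by gcongr
  nlinarith

end H41EC
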