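import Pool.Agent.H41.EC.Group

/-!
The graphs.
-/

namespace H41EC

open Polynomial Matrix SimpleGraph

set_option maxHeartbeats 400000

variable {F : Type*} [Field F]

section generic

variable {R : Type*} [CommRing R]

theorem gen_xx (s s' : R) :
    (!![1, 0, 0; 0, 1, 0; s, 0, 1] : Matrix (Fin 3) (Fin 3) R) * !![1, 0, 0; 0, 1, 0; s', 0, 1] =
      !![1, 0, 0; 0, 1, 0; s + s', 0, 1] := by
  rw [Matrix.mul_fin_three]
  simp

theorem gen_yy (t u t' u' : R) :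
    (!![1, t, u; 0, 1, t; 0, 0, 1] : Matrix (Fin 3) (Fin 3) R) * !![1, t', u'; 0, 1, t'; 0, 0, 1] =
      !![1, t' + t, u' + t * t' + u; 0, 1, t' + t; 0, 0, 1] := by
  rw [Matrix.mul_fin_three]
  simp

theorem gen_xP (s s' z : R) (h : s + z ^ 2 * s' = 0) :
    (!![1, 0, 0; 0, 1, 0; s, 0, 1] : Matrix (Fin 3) (Fin 3) R) * !![0, 0, 1; 0, -z, 0; z ^ 2, 0, 0]
      * (!![1, 0, 0; 0, 1, 0; s', 0, 1] : Matrix (Fin 3) (Fin 3) R)ᵀ
      = !![0, 0, 1; 0, -z, 0; z ^ 2, 0, 0] := by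
  have ht : (!![1, 0, 0; 0, 1, 0; s', 0, 1] : Matrix (Fin 3) (Fin 3) R)ᵀ
      = !![1, 0, s'; 0, 1, 0; 0, 0, 1] := by
    ext i j
    fin_cases i <;> fin_cases j <;> rfl
  rw [ht, Matrix.mul_fin_three, Matrix.mul_fin_three]
  simp
  linear_combination h

theorem gen_yP (t u z : R) (h : t ^ 2 = 2 * u) :
    (!![1, t, u; 0, 1, t; 0, 0, 1] : Matrix (Fin 3) (Fin 3) R) * !![0, 0, 1; 0, -z, 0; z ^ 2, 0, 0]
      * (!![1, z * t, z ^ 2 * u; 0, 1, z * t; 0, 0, 1] : Matrix (Fin 3) (Fin 3) R)ᵀ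
      = !![0, 0, 1; 0, -z, 0; z ^ 2, 0, 0] := by
  have ht : (!![1, z * t, z ^ 2 * u; 0, 1, z * t; 0, 0, 1] : Matrix (Fin 3) (Fin 3) R)ᵀ
      = !![1, 0, 0; z * t, 1, 0; z ^ 2 * u, z * t, 1] := by
    ext i j
    fin_cases i <;> fin_cases j <;> rfl
  rw [ht, Matrix.mul_fin_three, Matrix.mul_fin_three]
  simp
  refine ⟨⟨?_, ?_⟩, ?_⟩
  · linear_combination -z ^ 2 * h
  · ring
  · ring

end generic

theorem fp_eq (ζ : F) : fp ζ = !![0, 0, 1; 0, -C ζ, 0; C ζ ^ 2, 0, 0] := by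
  rw [fp, fm, Matrix.eta_fin_three (Matrix.map _ _)]
  simp

theorem two_b (b : F) : (C (2 * b) * (X : F[X]) ^ 1) ^ 2 = 2 * (C (2 * b ^ 2) * X ^ 2) := by
  have h2 : (2 : F[X]) = C (2 : F) := (map_ofNat C 2).symm
  rw [h2, C_mul, C_mul, C_pow]
  ring

theorem mx_pres {ζ : F} (h4 : ζ ^ 4 = -1) (a : F) : Pres ζ (mx a) := by
  unfold Pres
  have h1 : (mx a).map (sb ζ) = !![1, 0, 0; 0, 1, 0; C a * (C (ζ ^ 2) * X ^ 2), 0, 1] := by
    rw [mx, Matrix.eta_fin_three (Matrix.map _ _)]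
    simp [sb_X_pow, sb_C]
  rw [h1, fp_eq, mx]
  apply gen_xP
  have h5 : (C ζ : F[X]) ^ 2 * C (ζ ^ 2) = -1 := by
    rw [← C_pow, ← C_mul, ← pow_add, h4]
    simp
  linear_combination C a * X ^ 2 * h5

theorem my_pres (ζ b : F) : Pres ζ (my b) := by
  unfold Pres
  have h1 : (my b).map (sb ζ) = !![1, C ζ * (C (2 * b) * X ^ 1), C ζ ^ 2 * (C (2 * b ^ 2) * X ^ 2);
      0, 1, C ζ * (C (2 * b) * X ^ 1); 0, 0, 1] := by
    have e1 : sb ζ (C (2 * b) * X ^ 1) = C ζ * (C (2 * b) * X ^ 1) := by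
      rw [map_mul, sb_X_pow, sb_C, pow_one]
      ring
    have e2 : sb ζ (C (2 * b ^ 2) * X ^ 2) = C ζ ^ 2 * (C (2 * b ^ 2) * X ^ 2) := by
      rw [map_mul, sb_X_pow, sb_C, C_pow (a := ζ)]
      ring
    rw [my, Matrix.eta_fin_three (Matrix.map _ _)]
    simp only [Matrix.map_apply, Matrix.of_apply, Matrix.cons_val', Matrix.cons_val_zero,
      Matrix.cons_val_one, Matrix.cons_val, e1, e2, map_zero, map_one]
  rw [h1, fp_eq, my]
  exact gen_yP _ _ _ (two_b b)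

theorem mx_e0 (a : F) : (mx a).map e0 = 1 := by
  rw [mx, Matrix.eta_fin_three (Matrix.map _ _), Matrix.one_fin_three]
  simp [e0]

theorem my_e0 (b : F) : (my b).map e0 = 1 := by
  rw [my, Matrix.eta_fin_three (Matrix.map _ _), Matrix.one_fin_three]
  simp [e0]

theorem mx_det (a : F) : det (mx a) = 1 := by
  rw [mx, Matrix.det_fin_three]
  simp

theorem my_det (b : F) : det (my b) = 1 := by
  rw [my, Matrix.det_fin_three]
  simp

theorem mx_add (a b : F) : mx (a + b) = mx a * mx b := by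
  rw [mx, mx, mx, gen_xx, C_add, add_mul]

theorem my_add (a b : F) : my (a + b) = my b * my a := by
  rw [my, my, my, gen_yy]
  have e1 : C (2 * (a + b)) * (X : F[X]) ^ 1 = C (2 * a) * X ^ 1 + C (2 * b) * X ^ 1 := by
    rw [mul_add, C_add, add_mul]
  have e2 : C (2 * (a + b) ^ 2) * (X : F[X]) ^ 2 = C (2 * a ^ 2) * X ^ 2
      + C (2 * b) * X ^ 1 * (C (2 * a) * X ^ 1) + C (2 * b ^ 2) * X ^ 2 := by
    rw [show 2 * (a + b) ^ 2 = 2 * a ^ 2 + (2 * b) * (2 * a) + 2 * b ^ 2 by ring, C_add, C_add,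
      C_mul (a := 2 * b)]
    ring
  rw [e1, e2]

theorem mx_zero : mx (0 : F) = 1 := by
  rw [mx, Matrix.one_fin_three]; simp

theorem my_zero : my (0 : F) = 1 := by
  rw [my, Matrix.one_fin_three]; simp

/-- `mx a` as an element of the group. -/
noncomputable def gx {ζ : F} (h4 : ζ ^ 4 = -1) (a : F) : Gam ζ :=
  ⟨⟨mx a, mx_det a⟩, mx_pres h4 a, mx_e0 a⟩

/-- `my b` as an element of the group. -/
noncomputable def gy (ζ : F) (b : F) : Gam ζ :=
  ⟨⟨my b, my_det b⟩, my_pres ζ b, my_e0 b⟩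

noncomputable def hx {ζ : F} (h4 : ζ ^ 4 = -1) : Multiplicative F →* Gam ζ where
  toFun a := gx h4 (Multiplicative.toAdd a)
  map_one' := by
    apply Subtype.ext
    apply Subtype.ext
    show mx (0 : F) = 1
    exact mx_zero
  map_mul' a b := by
    apply Subtype.ext
    apply Subtype.ext
    show mx (Multiplicative.toAdd a + Multiplicative.toAdd b) = _
    exact mx_add _ _

noncomputable def hy (ζ : F) : Multiplicative F →* Gam ζ where
  toFun a := gy ζ (Multiplicative.toAdd a)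
  map_one' := by
    apply Subtype.ext
    apply Subtype.ext
    show my (0 : F) = 1
    exact my_zero
  map_mul' a b := by
    apply Subtype.ext
    apply Subtype.ext
    show my (Multiplicative.toAdd a + Multiplicative.toAdd b) = _
    rw [add_comm]
    exact my_add _ _

/-- The image of `mx`. -/
noncomputable def SA {ζ : F} (h4 : ζ ^ 4 = -1) (M : ℕ) : Subgroup (QM ζ M) :=
  ((QuotientGroup.mk' (cong ζ M)).comp (hx h4)).range

/-- The image of `my`. -/
noncomputable def SB (ζ : F) (M : ℕ) : Subgroup (QM ζ M) :=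
  ((QuotientGroup.mk' (cong ζ M)).comp (hy ζ)).range

/-- A product `mx a * my b` congruent to `1` is trivial. -/
theorem triv_of_cong (h2 : (2 : F) ≠ 0) {M : ℕ} (hM : 3 ≤ M) (a b : F)
    (h : Dv M (mx a * my b - 1)) : a = 0 ∧ b = 0 := by
  rw [mx_mul_my] at h
  have h3 : X ^ M ∣ C (2 * b) * (X : F[X]) ^ 1 := by
    have := h 0 1
    simpa using this
  have h4 : X ^ M ∣ C a * (X : F[X]) ^ 2 := by
    have := h 2 0
    simpa using this
  have h5 := (X_pow_dvd_iff.mp h3) 1 (by omega)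
  have h6 := (X_pow_dvd_iff.mp h4) 2 (by omega)
  rw [coeff_C_mul_X_pow, if_pos rfl] at h5 h6
  exact ⟨h6, (mul_eq_zero.mp h5).resolve_left h2⟩

theorem SA_card (h2 : (2 : F) ≠ 0) {ζ : F} (h4 : ζ ^ 4 = -1) {M : ℕ} (hM : 3 ≤ M) :
    Nat.card (SA h4 M) = Nat.card F := by
  have hinj : Function.Injective ((QuotientGroup.mk' (cong ζ M)).comp (hx h4)) := by
    rw [injective_iff_map_eq_one]
    intro a ha
    have h1 : hx h4 a ∈ cong ζ M := (QuotientGroup.eq_one_iff _).mp ha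
    have h3 : Dv M (mx (Multiplicative.toAdd a) * my 0 - 1) := by
      rw [my_zero, mul_one]
      exact h1
    exact (triv_of_cong h2 hM _ _ h3).1
  exact (Nat.card_congr (MonoidHom.ofInjective hinj).toEquiv).symm

theorem SB_card (h2 : (2 : F) ≠ 0) (ζ : F) {M : ℕ} (hM : 3 ≤ M) :
    Nat.card (SB ζ M) = Nat.card F := by
  have hinj : Function.Injective ((QuotientGroup.mk' (cong ζ M)).comp (hy ζ)) := by
    rw [injective_iff_map_eq_one]
    intro a ha
    have h1 : hy ζ a ∈ cong ζ M := (QuotientGroup.eq_one_iff _).mp ha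
    have h3 : Dv M (mx 0 * my (Multiplicative.toAdd a) - 1) := by
      rw [mx_zero, one_mul]
      exact h1
    exact (triv_of_cong h2 hM _ _ h3).2
  exact (Nat.card_congr (MonoidHom.ofInjective hinj).toEquiv).symm

theorem SA_inf_SB (h2 : (2 : F) ≠ 0) {ζ : F} (h4 : ζ ^ 4 = -1) {M : ℕ} (hM : 3 ≤ M) :
    SA h4 M ⊓ SB ζ M = ⊥ := by
  rw [eq_bot_iff]
  rintro g ⟨⟨a, rfl⟩, ⟨b, hb⟩⟩
  rw [Subgroup.mem_bot]
  have h1 : (QuotientGroup.mk' (cong ζ M)) ((hx h4 a)⁻¹ * hy ζ b) = 1 := by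
    rw [map_mul, map_inv]
    exact inv_mul_eq_one.mpr hb.symm
  rw [← map_inv (hx h4)] at h1
  have h3 : hx h4 a⁻¹ * hy ζ b ∈ cong ζ M := (QuotientGroup.eq_one_iff _).mp h1
  have h5 := (triv_of_cong h2 hM _ _ h3).1
  have h6 : a = 1 := by
    have : a⁻¹ = 1 := h5
    exact inv_eq_one.mp this
  rw [h6, map_one]

/-- No nontrivial alternating words. -/
theorem word_ne (h2 : (2 : F) ≠ 0) {ζ : F} (h4 : ζ ^ 4 = -1) {M : ℕ} (j : ℕ) (hj : Odd j)
    (hM : 4 * j < 3 * M) (a b : ℕ → QM ζ M) (ha : ∀ i, a i ∈ SA h4 M ∧ a i ≠ 1)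
    (hb : ∀ i, b i ∈ SB ζ M ∧ b i ≠ 1) : wd a b j ≠ 1 := by
  intro hw
  choose a' ha' using fun i => (ha i).1
  choose b' hb' using fun i => (hb i).1
  have e : wd a b j = QuotientGroup.mk' (cong ζ M) (wd (fun i => hx h4 (a' i))
      (fun i => hy ζ (b' i)) j) := by
    rw [map_wd]
    apply wd_congr
    · intro i _; exact (ha' i).symm
    · intro i _; exact (hb' i).symm
  rw [e] at hw
  have h1 : wd (fun i => hx h4 (a' i)) (fun i => hy ζ (b' i)) j ∈ cong ζ M :=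
    (QuotientGroup.eq_one_iff _).mp hw
  let val : Gam ζ →* Matrix (Fin 3) (Fin 3) F[X] :=
    { toFun := fun g => g.1.1
      map_one' := rfl
      map_mul' := fun _ _ => rfl }
  have h3 : val (wd (fun i => hx h4 (a' i)) (fun i => hy ζ (b' i)) j)
      = wm (fun i => Multiplicative.toAdd (a' i)) (fun i => Multiplicative.toAdd (b' i)) j := by
    rw [map_wd]
    rfl
  have h5 : Dv M (wm (fun i => Multiplicative.toAdd (a' i))
      (fun i => Multiplicative.toAdd (b' i)) j - 1) := by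
    rw [← h3]
    exact h1
  refine wm_not_cong h2 _ _ j hj ?_ ?_ M hM h5
  · intro i hi
    have : a' i = 1 := hi
    apply (ha i).2
    rw [← ha' i, this, map_one]
  · intro i hi
    have : b' i = 1 := hi
    apply (hb i).2
    rw [← hb' i, this, map_one]

/-- The graphs over a fixed finite field. -/
theorem graph_F [Finite F] (h2 : (2 : F) ≠ 0) {ζ : F} (hζ : IsPrimitiveRoot ζ 8) (h4 : ζ ^ 4 = -1)
    (l : ℕ) (hl : 3 ≤ l) :
    ∃ g0 : ℕ, 1 ≤ g0 ∧ g0 ≤ Nat.card F ^ (4 * l / 3) ∧ ∀ m n : ℕ, 1 ≤ m →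
      2 * (g0 * m) ≤ n * Nat.card F →
      ∃ Γ : SimpleGraph (Fin n), (∀ j ∈ {j : ℕ | Odd j ∧ 3 ≤ j ∧ j ≤ l},
        (cycleGraph (2 * j)).Free Γ) ∧ g0 * m ≤ Γ.edgeSet.ncard := by
  set M := 4 * l / 3 + 1 with hM
  have hM3 : 3 ≤ M := by omega
  have := QM_finite hζ M
  refine ⟨Nat.card (QM ζ M), Nat.card_pos, ?_, ?_⟩
  · have := QM_card hζ M
    simpa [hM] using this
  intro m n hm hmn
  have : NeZero m := ⟨by omega⟩
  have : Finite (Multiplicative (ZMod m)) := Finite.of_equiv (ZMod m) Multiplicative.ofAdd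
  have hcard : Nat.card (QM ζ M × Multiplicative (ZMod m)) = Nat.card (QM ζ M) * m := by
    rw [Nat.card_prod]
    congr 1
    rw [Nat.card_congr (Multiplicative.toAdd (α := ZMod m)), Nat.card_zmod]
  have hc : ∀ H : Subgroup (QM ζ M), Nat.card (H.prod (⊥ : Subgroup (Multiplicative (ZMod m))))
      = Nat.card H := by
    intro H
    rw [Nat.card_congr (Subgroup.prodEquiv H ⊥).toEquiv, Nat.card_prod]
    simp
  have key := coset_graph ((SA h4 M).prod (⊥ : Subgroup (Multiplicative (ZMod m))))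
    ((SB ζ M).prod (⊥ : Subgroup (Multiplicative (ZMod m)))) (Nat.card F)
    (by rw [hc, SA_card h2 h4 hM3]) (by rw [hc, SB_card h2 ζ hM3])
    (by
      rw [eq_bot_iff]
      rintro ⟨x, y⟩ ⟨k1, k2⟩
      have k1' := Subgroup.mem_prod.mp k1
      have k2' := Subgroup.mem_prod.mp k2
      have k3 : x ∈ SA h4 M ⊓ SB ζ M := ⟨k1'.1, k2'.1⟩
      rw [SA_inf_SB h2 h4 hM3, Subgroup.mem_bot] at k3
      rw [Subgroup.mem_bot]
      exact Prod.ext k3 (Subgroup.mem_bot.mp k1'.2))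
    {j : ℕ | Odd j ∧ 3 ≤ j ∧ j ≤ l} (fun j hj => by have := hj.2.1; omega) ?_ n
    (by rw [hcard]; exact hmn)
  · obtain ⟨Γ, h1, h3⟩ := key
    exact ⟨Γ, h1, by rwa [hcard] at h3⟩
  · rintro j ⟨hj1, hj2, hj3⟩ a b ha hb hw
    have h5 : wd (fun i => (a i).1) (fun i => (b i).1) j = 1 := by
      have := congrArg (MonoidHom.fst (QM ζ M) (Multiplicative (ZMod m))) hw
      rw [map_wd, map_one] at this
      exact this
    refine word_ne h2 h4 j hj1 (by omega) _ _ ?_ ?_ h5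
    · intro i
      obtain ⟨h6, h7⟩ := ha i
      rw [Subgroup.mem_prod] at h6
      refine ⟨h6.1, fun h8 => h7 ?_⟩
      exact Prod.ext h8 (Subgroup.mem_bot.mp h6.2)
    · intro i
      obtain ⟨h6, h7⟩ := hb i
      rw [Subgroup.mem_prod] at h6
      refine ⟨h6.1, fun h8 => h7 ?_⟩
      exact Prod.ext h8 (Subgroup.mem_bot.mp h6.2)

end H41EC
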