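import Pool.Agent.H41.EC.Loop

/-!
The finite groups `Γ / Γ(M)`.
-/

namespace H41EC

open Polynomial Matrix

set_option maxHeartbeats 400000

variable {F : Type*} [Field F]

abbrev SL3 (F : Type*) [Field F] := Matrix.SpecialLinearGroup (Fin 3) F[X]

theorem coe_inv_mul (w : SL3 F) : ((w⁻¹ : SL3 F) : Matrix (Fin 3) (Fin 3) F[X]) * w = 1 := by
  rw [← Matrix.SpecialLinearGroup.coe_mul, inv_mul_cancel, Matrix.SpecialLinearGroup.coe_one]

theorem coe_mul_inv (w : SL3 F) : (w : Matrix (Fin 3) (Fin 3) F[X]) * (w⁻¹ : SL3 F) = 1 := by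
  rw [← Matrix.SpecialLinearGroup.coe_mul, mul_inv_cancel, Matrix.SpecialLinearGroup.coe_one]

/-- The first congruence subgroup of the special unitary group. -/
noncomputable def Gam (ζ : F) : Subgroup (SL3 F) where
  carrier := {w | Pres ζ w.1 ∧ w.1.map e0 = 1}
  mul_mem' := by
    rintro v w ⟨hv, hv'⟩ ⟨hw, hw'⟩
    refine ⟨?_, ?_⟩
    · rw [Matrix.SpecialLinearGroup.coe_mul]; exact hv.mul hw
    · rw [Matrix.SpecialLinearGroup.coe_mul, map_mul', hv', hw', one_mul]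
  one_mem' := by
    refine ⟨?_, ?_⟩
    · rw [Matrix.SpecialLinearGroup.coe_one]; exact Pres.one ζ
    · rw [Matrix.SpecialLinearGroup.coe_one]
      exact Matrix.map_one _ (map_zero _) (map_one _)
  inv_mem' := by
    rintro w ⟨hw, hw'⟩
    refine ⟨hw.inv (coe_inv_mul w), ?_⟩
    have h1 : ((w⁻¹ : SL3 F).1 * w.1).map e0 = (1 : Matrix (Fin 3) (Fin 3) F[X]).map e0 :=
      congrArg (fun A : Matrix (Fin 3) (Fin 3) F[X] => A.map e0) (coe_inv_mul w)
    rw [map_mul', hw', mul_one] at h1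
    show (w⁻¹ : SL3 F).1.map e0 = 1
    rw [h1]
    exact Matrix.map_one _ (map_zero _) (map_one _)

/-- The congruence subgroup of level `M`. -/
noncomputable def cong (ζ : F) (M : ℕ) : Subgroup (Gam ζ) where
  carrier := {w | Dv M (w.1.1 - 1)}
  mul_mem' := by
    rintro v w hv hw
    show Dv M ((v * w).1.1 - 1)
    have : (v * w).1.1 - 1 = v.1.1 * (w.1.1 - 1) + (v.1.1 - 1) := by
      show v.1.1 * w.1.1 - 1 = _
      rw [mul_sub, mul_one]
      abel
    rw [this]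
    exact (Dv.mul_left _ hw).add hv
  one_mem' := by
    show Dv M ((1 : Gam ζ).1.1 - 1)
    have : (1 : Gam ζ).1.1 - 1 = 0 := by
      show (1 : Matrix (Fin 3) (Fin 3) F[X]) - 1 = 0
      simp
    rw [this]
    intro i j
    simp
  inv_mem' := by
    rintro w hw
    show Dv M ((w⁻¹).1.1 - 1)
    have : (w⁻¹).1.1 - 1 = -((w⁻¹).1.1 * (w.1.1 - 1)) := by
      rw [mul_sub, mul_one]
      have := coe_inv_mul w.1
      have h2 : (w⁻¹).1.1 * w.1.1 = 1 := this
      rw [h2]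
      abel
    rw [this]
    exact (Dv.mul_left _ hw).neg

theorem mem_cong {ζ : F} {M : ℕ} {w : Gam ζ} : w ∈ cong ζ M ↔ Dv M (w.1.1 - 1) := Iff.rfl

instance cong_normal (ζ : F) (M : ℕ) : (cong ζ M).Normal where
  conj_mem := by
    intro n hn g
    rw [mem_cong] at hn ⊢
    have : (g * n * g⁻¹).1.1 - 1 = g.1.1 * (n.1.1 - 1) * (g⁻¹).1.1 := by
      show g.1.1 * n.1.1 * (g⁻¹).1.1 - 1 = _
      have h2 : g.1.1 * (g⁻¹).1.1 = 1 := coe_mul_inv g.1
      rw [mul_sub, sub_mul, mul_one, h2]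
    rw [this]
    exact (Dv.mul_left _ hn).mul_right _

/-- Two elements are congruent modulo `X ^ M` iff they agree in the quotient. -/
theorem inv_mul_mem_cong {ζ : F} {M : ℕ} {g h : Gam ζ} (hd : Dv M (g.1.1 - h.1.1)) :
    h⁻¹ * g ∈ cong ζ M := by
  rw [mem_cong]
  have : (h⁻¹ * g).1.1 - 1 = (h⁻¹).1.1 * (g.1.1 - h.1.1) := by
    show (h⁻¹).1.1 * g.1.1 - 1 = _
    have h2 : (h⁻¹).1.1 * h.1.1 = 1 := coe_inv_mul h.1
    rw [mul_sub, h2]
  rw [this]
  exact Dv.mul_left _ hd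

theorem dvd_X_of_e0 {p : F[X]} (h : e0 p = 0) : X ∣ p := by
  rw [X_dvd_iff, coeff_zero_eq_eval_zero]
  exact h

/-- The inductive step: agreement modulo `X ^ M` and in one more coefficient gives agreement
modulo `X ^ (M + 1)`. -/
theorem inj_step {ζ : F} (hζ : IsPrimitiveRoot ζ 8) (M : ℕ) (hM : 1 ≤ M) (g h : Gam ζ)
    (hd : Dv M (g.1.1 - h.1.1))
    (hc : (g.1.1 (pos M).1 (pos M).2).coeff M = (h.1.1 (pos M).1 (pos M).2).coeff M) :
    Dv (M + 1) (g.1.1 - h.1.1) := by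
  obtain ⟨B, hB⟩ := (inv_mul_mem_cong hd).exists
  have hw : (h⁻¹ * g).1.1 = 1 + (X ^ M : F[X]) • B := by
    rw [← hB]; abel
  have hP : Pres ζ (1 + (X ^ M : F[X]) • B) := by
    rw [← hw]; exact (h⁻¹ * g).2.1
  have hdet : det (1 + (X ^ M : F[X]) • B) = 1 := by
    rw [← hw]; exact (h⁻¹ * g).1.2
  have h1 := layer_eq ζ M hM B hP
  have h2 := trace_eq M hM B hdet
  have h3 : g.1.1 - h.1.1 = (X ^ M : F[X]) • (h.1.1 * B) := by
    have : g.1.1 = h.1.1 * (h⁻¹ * g).1.1 := by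
      show g.1.1 = h.1.1 * ((h⁻¹).1.1 * g.1.1)
      have h2 : h.1.1 * (h⁻¹).1.1 = 1 := coe_mul_inv h.1
      rw [← mul_assoc, h2, one_mul]
    rw [this, hw, mul_add, mul_one, mul_smul_comm]
    abel
  have h4 : (h.1.1 * B).map e0 = B.map e0 := by
    rw [map_mul', h.2.2, one_mul]
  have h5 : B.map e0 (pos M).1 (pos M).2 = 0 := by
    have h6 : ((g.1.1 - h.1.1) (pos M).1 (pos M).2).coeff M = 0 := by
      rw [Matrix.sub_apply, coeff_sub, hc, sub_self]
    rw [h3, Matrix.smul_apply, smul_eq_mul, coeff_X_pow_mul', if_pos le_rfl, Nat.sub_self,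
      coeff_zero_eq_eval_zero] at h6
    rw [← h4]
    exact h6
  have h6 : B.map e0 = 0 := layer ζ hζ M _ h2 h1 h5
  rw [h3]
  intro i j
  rw [Matrix.smul_apply, smul_eq_mul, pow_succ]
  apply mul_dvd_mul_left
  apply dvd_X_of_e0
  have := congrFun (congrFun h4 i) j
  rw [h6] at this
  exact this

theorem inj_all {ζ : F} (hζ : IsPrimitiveRoot ζ 8) (g h : Gam ζ) (M : ℕ)
    (hc : ∀ m, 1 ≤ m → m < M → (g.1.1 (pos m).1 (pos m).2).coeff m
      = (h.1.1 (pos m).1 (pos m).2).coeff m) : Dv M (g.1.1 - h.1.1) := by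
  induction M with
  | zero => intro i j; simp
  | succ M ih =>
    rcases Nat.eq_zero_or_pos M with hM | hM
    · subst hM
      intro i j
      rw [zero_add, pow_one]
      apply dvd_X_of_e0
      have h1 := congrFun (congrFun g.2.2 i) j
      have h2 := congrFun (congrFun h.2.2 i) j
      have h3 : e0 (g.1.1 i j) = (1 : Matrix (Fin 3) (Fin 3) F) i j := h1
      have h4 : e0 (h.1.1 i j) = (1 : Matrix (Fin 3) (Fin 3) F) i j := h2
      rw [Matrix.sub_apply, map_sub, h3, h4, sub_self]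
    · exact inj_step hζ M hM g h (ih fun m hm hm' => hc m hm (by omega)) (hc M hM (by omega))

/-- The finite quotient. -/
abbrev QM (ζ : F) (M : ℕ) := Gam ζ ⧸ cong ζ M

/-- The coordinates of an element of the quotient. -/
noncomputable def crd (ζ : F) (M : ℕ) (c : QM ζ M) : Fin (M - 1) → F := fun i =>
  ((c.out).1.1 (pos (i + 1)).1 (pos (i + 1)).2).coeff (i + 1)

theorem crd_injective {ζ : F} (hζ : IsPrimitiveRoot ζ 8) (M : ℕ) :
    Function.Injective (crd ζ M) := by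
  intro c d hcd
  have h1 : Dv M ((c.out).1.1 - (d.out).1.1) := by
    apply inj_all hζ
    intro m hm hm'
    have h2 := congrFun hcd ⟨m - 1, by omega⟩
    simp only [crd] at h2
    rw [show m - 1 + 1 = m by omega] at h2
    exact h2
  have h2 := inv_mul_mem_cong h1
  rw [← QuotientGroup.out_eq' c, ← QuotientGroup.out_eq' d]
  exact (QuotientGroup.eq.mpr h2).symm

theorem QM_finite [Finite F] {ζ : F} (hζ : IsPrimitiveRoot ζ 8) (M : ℕ) : Finite (QM ζ M) :=
  Finite.of_injective _ (crd_injective hζ M)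

theorem QM_card [Finite F] {ζ : F} (hζ : IsPrimitiveRoot ζ 8) (M : ℕ) :
    Nat.card (QM ζ M) ≤ Nat.card F ^ (M - 1) := by
  have := Nat.card_le_card_of_injective _ (crd_injective hζ M)
  rwa [Nat.card_fun, Nat.card_fin] at this

end H41EC
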