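import Pool.Agent.H41.EC.Word

/-!
The first congruence subgroup of a twisted loop group of type `²A₂` over `F[X]`: its congruence
layers are at most one dimensional.
-/

namespace H41EC

open Polynomial Matrix

set_option maxHeartbeats 400000

variable {F : Type*} [Field F]

/-- The constant form. -/
def fm (ζ : F) : Matrix (Fin 3) (Fin 3) F := !![0, 0, 1; 0, -ζ, 0; ζ ^ 2, 0, 0]

/-- The position of the coordinate of the `M`-th layer. -/
def pos (M : ℕ) : Fin 3 × Fin 3 :=
  if M % 4 = 0 then (0, 0) else if M % 4 = 1 then (0, 1) else if M % 4 = 3 then (1, 0) else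
    if M % 8 = 2 then (2, 0) else (0, 2)

theorem fm_mul_right (ζ : F) (A : Matrix (Fin 3) (Fin 3) F) :
    A * fm ζ = !![ζ ^ 2 * A 0 2, -ζ * A 0 1, A 0 0; ζ ^ 2 * A 1 2, -ζ * A 1 1, A 1 0;
      ζ ^ 2 * A 2 2, -ζ * A 2 1, A 2 0] := by
  rw [fm, Matrix.eta_fin_three A, Matrix.mul_fin_three]
  simp [mul_comm]

theorem fm_mul_left (ζ : F) (A : Matrix (Fin 3) (Fin 3) F) :
    fm ζ * Aᵀ = !![A 0 2, A 1 2, A 2 2; -ζ * A 0 1, -ζ * A 1 1, -ζ * A 2 1;
      ζ ^ 2 * A 0 0, ζ ^ 2 * A 1 0, ζ ^ 2 * A 2 0] := by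
  rw [fm, Matrix.eta_fin_three Aᵀ, Matrix.mul_fin_three]
  simp [Matrix.transpose_apply]

/-- Each layer is at most one dimensional. -/
theorem layer (ζ : F) (hζ : IsPrimitiveRoot ζ 8) (M : ℕ) (A : Matrix (Fin 3) (Fin 3) F)
    (htr : Matrix.trace A = 0) (hA : A * fm ζ + ζ ^ M • (fm ζ * Aᵀ) = 0)
    (hpos : A (pos M).1 (pos M).2 = 0) : A = 0 := by
  have h8 : ζ ^ 8 = 1 := hζ.pow_eq_one
  have h4 : ζ ^ 4 = -1 := by
    have h1 : (ζ ^ 4 - 1) * (ζ ^ 4 + 1) = 0 := by linear_combination h8
    rcases mul_eq_zero.mp h1 with h | h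
    · exact absurd (sub_eq_zero.mp h) (hζ.pow_ne_one_of_pos_of_lt (by norm_num) (by norm_num))
    · linear_combination h
  have h0 : ζ ≠ 0 := hζ.ne_zero (by norm_num)
  have hord : ∀ m k : ℕ, ζ ^ m = ζ ^ k → m % 8 = k % 8 := by
    intro m k hmk
    rw [pow_eq_pow_mod m h8, pow_eq_pow_mod k h8] at hmk
    exact hζ.pow_inj (Nat.mod_lt _ (by norm_num)) (Nat.mod_lt _ (by norm_num)) hmk
  rw [fm_mul_right, fm_mul_left] at hA
  have e : ∀ i j, (!![ζ ^ 2 * A 0 2, -ζ * A 0 1, A 0 0; ζ ^ 2 * A 1 2, -ζ * A 1 1, A 1 0;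
      ζ ^ 2 * A 2 2, -ζ * A 2 1, A 2 0] : Matrix (Fin 3) (Fin 3) F) i j + ζ ^ M *
      (!![A 0 2, A 1 2, A 2 2; -ζ * A 0 1, -ζ * A 1 1, -ζ * A 2 1;
      ζ ^ 2 * A 0 0, ζ ^ 2 * A 1 0, ζ ^ 2 * A 2 0] : Matrix (Fin 3) (Fin 3) F) i j = 0 := by
    intro i j
    exact congrFun (congrFun hA i) j
  have e00 := e 0 0
  have e01 := e 0 1
  have e02 := e 0 2
  have e10 := e 1 0
  have e12 := e 1 2
  have e20 := e 2 0
  have e21 := e 2 1
  have e22 := e 2 2
  simp at e00 e01 e02 e10 e12 e20 e21 e22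
  rw [Matrix.trace_fin_three] at htr
  have z2 : ζ ^ 2 ≠ 0 := pow_ne_zero 2 h0
  have zM : ζ ^ M ≠ 0 := pow_ne_zero M h0
  -- entries
  have a00 : A 0 0 = 0 := by
    by_cases hM : M % 4 = 0
    · have : pos M = (0, 0) := by simp [pos, hM]
      rw [this] at hpos
      exact hpos
    · have h1 : (1 - ζ ^ (2 * M)) * A 0 0 = 0 := by
        have h2 : ζ ^ 2 * (A 2 2 + ζ ^ M * A 0 0) = 0 := by linear_combination e20
        have h3 := (mul_eq_zero.mp h2).resolve_left z2
        rw [pow_mul', sq]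
        linear_combination e02 - ζ ^ M * h3
      rcases mul_eq_zero.mp h1 with h | h
      · exfalso
        have := hord (2 * M) 0 (by rw [pow_zero]; linear_combination -h)
        omega
      · exact h
  have a22 : A 2 2 = 0 := by
    have h2 : ζ ^ M * A 2 2 = 0 := by linear_combination e02 - a00
    exact (mul_eq_zero.mp h2).resolve_left zM
  have a11 : A 1 1 = 0 := by linear_combination htr - a00 - a22
  have a01 : A 0 1 = 0 := by
    by_cases hM : M % 4 = 1
    · have : pos M = (0, 1) := by simp [pos, hM]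
      rw [this] at hpos
      exact hpos
    · have h2 : ζ * (ζ * A 1 2 - ζ ^ M * A 0 1) = 0 := by linear_combination e10
      have h3 := (mul_eq_zero.mp h2).resolve_left h0
      have h1 : (ζ ^ 2 - ζ ^ (2 * M)) * A 0 1 = 0 := by
        rw [pow_mul', sq (ζ ^ M)]
        linear_combination -ζ * e01 + ζ ^ M * h3
      rcases mul_eq_zero.mp h1 with h | h
      · exfalso
        have := hord (2 * M) 2 (by linear_combination -h)
        omega
      · exact h
  have a12 : A 1 2 = 0 := by
    have h2 : ζ ^ 2 * A 1 2 = 0 := by linear_combination e10 + ζ ^ M * ζ * a01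
    exact (mul_eq_zero.mp h2).resolve_left z2
  have a10 : A 1 0 = 0 := by
    by_cases hM : M % 4 = 3
    · have : pos M = (1, 0) := by simp [pos, hM]
      rw [this] at hpos
      exact hpos
    · have h2 : ζ * (A 2 1 - ζ ^ M * ζ * A 1 0) = 0 := by linear_combination -e21
      have h3 := (mul_eq_zero.mp h2).resolve_left h0
      have h1 : (1 - ζ ^ (2 * M + 2)) * A 1 0 = 0 := by
        rw [pow_add, pow_mul', sq (ζ ^ M)]
        linear_combination e12 + ζ ^ M * ζ * h3
      rcases mul_eq_zero.mp h1 with h | h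
      · exfalso
        have := hord (2 * M + 2) 0 (by rw [pow_zero]; linear_combination -h)
        omega
      · exact h
  have a21 : A 2 1 = 0 := by
    have h2 : ζ * A 2 1 = 0 := by linear_combination -e21 + ζ ^ M * ζ ^ 2 * a10
    exact (mul_eq_zero.mp h2).resolve_left h0
  have a02 : A 0 2 = 0 := by
    by_cases hM : M % 8 = 6
    · have : pos M = (0, 2) := by
        have h1 : M % 4 = 2 := by omega
        simp [pos, hM, h1]
      rw [this] at hpos
      exact hpos
    · have h1 : (ζ ^ 2 + ζ ^ M) * A 0 2 = 0 := by linear_combination e00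
      rcases mul_eq_zero.mp h1 with h | h
      · exfalso
        have := hord M 6 (by linear_combination h - ζ ^ 2 * h4)
        omega
      · exact h
  have a20 : A 2 0 = 0 := by
    by_cases hM : M % 8 = 2
    · have : pos M = (2, 0) := by
        have h1 : M % 4 = 2 := by omega
        simp [pos, hM, h1]
      rw [this] at hpos
      exact hpos
    · have h1 : (1 + ζ ^ (M + 2)) * A 2 0 = 0 := by
        rw [pow_add]
        linear_combination e22
      rcases mul_eq_zero.mp h1 with h | h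
      · exfalso
        have := hord (M + 2) 4 (by rw [h4]; linear_combination h)
        omega
      · exact h
  rw [Matrix.eta_fin_three A, a00, a01, a02, a10, a11, a12, a20, a21, a22]
  ext i j
  fin_cases i <;> fin_cases j <;> rfl

end H41EC
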