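import Pool.Agent.H41.EC.Layer

/-!
The congruence group `Γ` and its layers.
-/

namespace H41EC

open Polynomial Matrix

set_option maxHeartbeats 400000

variable {F : Type*} [Field F]

/-- All entries are divisible by `X ^ M`. -/
def Dv (M : ℕ) (A : Matrix (Fin 3) (Fin 3) F[X]) : Prop := ∀ i j, X ^ M ∣ A i j

theorem Dv.add {M : ℕ} {A B : Matrix (Fin 3) (Fin 3) F[X]} (hA : Dv M A) (hB : Dv M B) :
    Dv M (A + B) := fun i j => dvd_add (hA i j) (hB i j)

theorem Dv.neg {M : ℕ} {A : Matrix (Fin 3) (Fin 3) F[X]} (hA : Dv M A) : Dv M (-A) :=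
  fun i j => (dvd_neg (α := F[X])).mpr (hA i j)

theorem Dv.mul_left {M : ℕ} {B : Matrix (Fin 3) (Fin 3) F[X]} (A : Matrix (Fin 3) (Fin 3) F[X])
    (hB : Dv M B) : Dv M (A * B) := fun i j => by
  rw [Matrix.mul_apply]
  exact Finset.dvd_sum fun k _ => Dvd.dvd.mul_left (hB k j) _

theorem Dv.mul_right {M : ℕ} {A : Matrix (Fin 3) (Fin 3) F[X]} (hA : Dv M A)
    (B : Matrix (Fin 3) (Fin 3) F[X]) : Dv M (A * B) := fun i j => by
  rw [Matrix.mul_apply]
  exact Finset.dvd_sum fun k _ => Dvd.dvd.mul_right (hA i k) _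

theorem Dv.exists {M : ℕ} {A : Matrix (Fin 3) (Fin 3) F[X]} (hA : Dv M A) :
    ∃ B : Matrix (Fin 3) (Fin 3) F[X], A = (X ^ M : F[X]) • B := by
  choose B hB using hA
  refine ⟨Matrix.of B, ?_⟩
  ext1 i j
  rw [hB]
  simp

theorem Dv.smul {M : ℕ} (B : Matrix (Fin 3) (Fin 3) F[X]) : Dv M ((X ^ M : F[X]) • B) :=
  fun i j => ⟨B i j, by simp⟩

/-- The substitution `X ↦ ζ X`. -/
noncomputable def sb (ζ : F) : F[X] →+* F[X] := compRingHom (C ζ * X)

/-- Evaluation at `0`. -/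
noncomputable def e0 : F[X] →+* F := evalRingHom 0

theorem sb_X_pow (ζ : F) (M : ℕ) : sb ζ (X ^ M) = C (ζ ^ M) * X ^ M := by
  simp [sb, mul_pow]

theorem sb_C (ζ a : F) : sb ζ (C a) = C a := by
  simp [sb]

theorem e0_sb (ζ : F) (p : F[X]) : e0 (sb ζ p) = e0 p := by
  simp [e0, sb]

theorem e0_C (a : F) : e0 (C a) = a := by simp [e0]

theorem e0_X_pow {M : ℕ} (hM : 1 ≤ M) : e0 ((X : F[X]) ^ M) = 0 := by
  simp [e0, Nat.one_le_iff_ne_zero.mp hM]

/-- The constant form, over polynomials. -/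
noncomputable def fp (ζ : F) : Matrix (Fin 3) (Fin 3) F[X] := (fm ζ).map C

/-- The condition of preserving the form. -/
def Pres (ζ : F) (w : Matrix (Fin 3) (Fin 3) F[X]) : Prop :=
  w * fp ζ * (w.map (sb ζ))ᵀ = fp ζ

theorem map_mul' {R S : Type*} [CommRing R] [CommRing S] (f : R →+* S)
    (A B : Matrix (Fin 3) (Fin 3) R) : (A * B).map f = A.map f * B.map f :=
  Matrix.map_mul

theorem Pres.mul {ζ : F} {v w : Matrix (Fin 3) (Fin 3) F[X]} (hv : Pres ζ v) (hw : Pres ζ w) :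
    Pres ζ (v * w) := by
  unfold Pres at *
  rw [map_mul', Matrix.transpose_mul]
  calc v * w * fp ζ * ((w.map (sb ζ))ᵀ * (v.map (sb ζ))ᵀ)
      = v * (w * fp ζ * (w.map (sb ζ))ᵀ) * (v.map (sb ζ))ᵀ := by simp only [Matrix.mul_assoc]
    _ = fp ζ := by rw [hw, hv]

theorem Pres.inv {ζ : F} {v w : Matrix (Fin 3) (Fin 3) F[X]} (hv : Pres ζ v) (h : w * v = 1) :
    Pres ζ w := by
  unfold Pres at *
  have h1 : (w.map (sb ζ)) * (v.map (sb ζ)) = 1 := by
    rw [← map_mul', h]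
    exact Matrix.map_one _ (map_zero _) (map_one _)
  have h2 : (v.map (sb ζ))ᵀ * (w.map (sb ζ))ᵀ = 1 := by
    rw [← Matrix.transpose_mul, h1, Matrix.transpose_one]
  calc w * fp ζ * (w.map (sb ζ))ᵀ
      = w * (v * fp ζ * (v.map (sb ζ))ᵀ) * (w.map (sb ζ))ᵀ := by rw [hv]
    _ = (w * v) * fp ζ * ((v.map (sb ζ))ᵀ * (w.map (sb ζ))ᵀ) := by simp only [Matrix.mul_assoc]
    _ = fp ζ := by rw [h, h2, Matrix.one_mul, Matrix.mul_one]

theorem Pres.one (ζ : F) : Pres ζ 1 := by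
  unfold Pres
  have h1 : (1 : Matrix (Fin 3) (Fin 3) F[X]).map (sb ζ) = 1 :=
    Matrix.map_one _ (map_zero _) (map_one _)
  rw [h1, Matrix.transpose_one, Matrix.one_mul, Matrix.mul_one]

/-- The layer equation. -/
theorem layer_eq (ζ : F) (M : ℕ) (hM : 1 ≤ M) (B : Matrix (Fin 3) (Fin 3) F[X])
    (h : Pres ζ (1 + (X ^ M : F[X]) • B)) :
    B.map e0 * fm ζ + ζ ^ M • (fm ζ * (B.map e0)ᵀ) = 0 := by
  unfold Pres at h
  set x : F[X] := X ^ M with hx
  have hx0 : x ≠ 0 := pow_ne_zero _ X_ne_zero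
  set c : F[X] := C (ζ ^ M) with hc
  have h1 : ((1 : Matrix (Fin 3) (Fin 3) F[X]) + x • B).map (sb ζ)
      = 1 + (c * x) • (B.map (sb ζ)) := by
    ext1 i j
    simp only [Matrix.map_apply, Matrix.add_apply, Matrix.smul_apply, smul_eq_mul, map_add,
      map_mul, hx, sb_X_pow, Matrix.one_apply]
    split_ifs <;> simp [hc]
  set D := B.map (sb ζ) with hD
  rw [h1, Matrix.transpose_add, Matrix.transpose_one, Matrix.transpose_smul, add_mul, one_mul,
    mul_add, mul_one] at h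
  have h2 : ∀ i j, x * ((B * fp ζ) i j + c * (fp ζ * Dᵀ) i j + (c * x) * (B * fp ζ * Dᵀ) i j)
      = 0 := by
    intro i j
    have h3 := congrFun (congrFun h i) j
    rw [add_mul] at h3
    simp only [Matrix.add_apply, Matrix.smul_apply, smul_eq_mul, smul_mul_assoc,
      mul_smul_comm] at h3
    linear_combination h3
  ext i j
  have h4 := (mul_eq_zero.mp (h2 i j)).resolve_left hx0
  have h5 := congrArg e0 h4
  rw [map_add, map_add, map_mul, map_mul, map_mul, hx, e0_X_pow hM, hc, e0_C, map_zero, mul_zero,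
    zero_mul, add_zero] at h5
  have h6 : e0 ((B * fp ζ) i j) = (B.map e0 * fm ζ) i j := by
    have : (B * fp ζ).map e0 = B.map e0 * fm ζ := by
      rw [map_mul']
      congr 1
      ext i j
      simp [fp, e0_C]
    rw [← this]
    rfl
  have h7 : e0 ((fp ζ * Dᵀ) i j) = (fm ζ * (B.map e0)ᵀ) i j := by
    have : (fp ζ * Dᵀ).map e0 = fm ζ * (B.map e0)ᵀ := by
      rw [map_mul']
      congr 1
      · ext i j
        simp [fp, e0_C]
      · ext i j
        simp [hD, e0_sb]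
    rw [← this]
    rfl
  rw [h6, h7] at h5
  simpa using h5

theorem trace_eq (M : ℕ) (hM : 1 ≤ M) (B : Matrix (Fin 3) (Fin 3) F[X])
    (h : det (1 + (X ^ M : F[X]) • B) = 1) : Matrix.trace (B.map e0) = 0 := by
  set x : F[X] := X ^ M with hx
  have hx0 : x ≠ 0 := pow_ne_zero _ X_ne_zero
  have h1 : (1 : Matrix (Fin 3) (Fin 3) F[X]) + x • B = !![1 + x * B 0 0, x * B 0 1, x * B 0 2;
      x * B 1 0, 1 + x * B 1 1, x * B 1 2; x * B 2 0, x * B 2 1, 1 + x * B 2 2] := by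
    rw [Matrix.eta_fin_three (1 + x • B)]
    simp
  rw [h1, Matrix.det_fin_three] at h
  simp at h
  have h2 : x * (B 0 0 + B 1 1 + B 2 2 + x * (B 0 0 * B 1 1 - B 0 1 * B 1 0 + B 0 0 * B 2 2
      - B 0 2 * B 2 0 + B 1 1 * B 2 2 - B 1 2 * B 2 1) + x * x * (B 0 0 * B 1 1 * B 2 2
      - B 0 0 * B 1 2 * B 2 1 - B 0 1 * B 1 0 * B 2 2 + B 0 1 * B 1 2 * B 2 0
      + B 0 2 * B 1 0 * B 2 1 - B 0 2 * B 1 1 * B 2 0)) = 0 := by
    linear_combination h
  have h3 := (mul_eq_zero.mp h2).resolve_left hx0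
  have h4 := congrArg e0 h3
  have h5 : e0 x = 0 := e0_X_pow hM
  rw [map_add, map_add, map_mul, map_mul, map_mul, h5, map_zero] at h4
  rw [Matrix.trace_fin_three]
  simp only [Matrix.map_apply]
  simpa using h4

end H41EC
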