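import Pool.Agent.H41.EC.Coset

/-!
Words in the two root subgroups of a twisted loop group of `SL 3` over `F[X]`, and the
determinant of `word - 1`.
-/

namespace H41EC

open Polynomial Matrix

set_option maxHeartbeats 400000

variable {F : Type*} [Field F]

/-- The element `1 + a X ^ 2 E₃₁`. -/
noncomputable def mx (a : F) : Matrix (Fin 3) (Fin 3) F[X] :=
  !![1, 0, 0; 0, 1, 0; C a * X ^ 2, 0, 1]

/-- The element `exp (2 b X (E₁₂ + E₂₃))`. -/
noncomputable def my (b : F) : Matrix (Fin 3) (Fin 3) F[X] :=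
  !![1, C (2 * b) * X ^ 1, C (2 * b ^ 2) * X ^ 2; 0, 1, C (2 * b) * X ^ 1; 0, 0, 1]

/-- The alternating word. -/
noncomputable def wm (a b : ℕ → F) (n : ℕ) : Matrix (Fin 3) (Fin 3) F[X] :=
  wd (fun i => mx (a i)) (fun i => my (b i)) n

theorem gen_mul {R : Type*} [CommRing R] (s t u : R) :
    (!![1, 0, 0; 0, 1, 0; s, 0, 1] : Matrix (Fin 3) (Fin 3) R) * !![1, t, u; 0, 1, t; 0, 0, 1] =
      !![1, t, u; 0, 1, t; s, s * t, s * u + 1] := by
  rw [Matrix.mul_fin_three]
  simp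

theorem jtj {R : Type*} [CommRing R] (w : Matrix (Fin 3) (Fin 3) R) :
    (!![0, 0, 1; 0, -1, 0; 1, 0, 0] : Matrix (Fin 3) (Fin 3) R) * wᵀ *
      !![0, 0, 1; 0, -1, 0; 1, 0, 0] =
      !![w 2 2, -w 1 2, w 0 2; -w 2 1, w 1 1, -w 0 1; w 2 0, -w 1 0, w 0 0] := by
  rw [Matrix.eta_fin_three wᵀ, Matrix.mul_fin_three, Matrix.mul_fin_three]
  simp only [Matrix.transpose_apply]
  simp

theorem gen_adj {R : Type*} [CommRing R] (s t u : R) (h : t ^ 2 = 2 * u) :
    adjugate ((!![1, 0, 0; 0, 1, 0; s, 0, 1] : Matrix (Fin 3) (Fin 3) R) *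
      !![1, t, u; 0, 1, t; 0, 0, 1]) =
    (!![0, 0, 1; 0, -1, 0; 1, 0, 0] : Matrix (Fin 3) (Fin 3) R) *
      ((!![1, 0, 0; 0, 1, 0; -s, 0, 1] : Matrix (Fin 3) (Fin 3) R) *
      !![1, t, u; 0, 1, t; 0, 0, 1])ᵀ * !![0, 0, 1; 0, -1, 0; 1, 0, 0] := by
  rw [gen_mul, gen_mul, jtj, Matrix.adjugate_fin_three_of]
  congr 1
  funext i j
  fin_cases i <;> fin_cases j <;> simp
  · linear_combination (-s) * h
  · ring
  · linear_combination h
  all_goals ring

theorem gen_det {R : Type*} [CommRing R] (s t u : R) :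
    det ((!![1, 0, 0; 0, 1, 0; s, 0, 1] : Matrix (Fin 3) (Fin 3) R) *
      !![1, t, u; 0, 1, t; 0, 0, 1]) = 1 := by
  rw [gen_mul, Matrix.det_fin_three]
  simp
  ring

theorem mx_mul_my (a b : F) : mx a * my b =
    !![1, C (2 * b) * X ^ 1, C (2 * b ^ 2) * X ^ 2; 0, 1, C (2 * b) * X ^ 1;
      C a * X ^ 2, C (2 * a * b) * X ^ 3, C (2 * a * b ^ 2) * X ^ 4 + 1] := by
  rw [mx, my, gen_mul]
  have h1 : C a * X ^ 2 * (C (2 * b) * X ^ 1) = C (2 * a * b) * (X : F[X]) ^ 3 := by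
    rw [show (2 * a * b : F) = a * (2 * b) by ring, C_mul (a := a)]
    ring
  have h2 : C a * X ^ 2 * (C (2 * b ^ 2) * X ^ 2) = C (2 * a * b ^ 2) * (X : F[X]) ^ 4 := by
    rw [show (2 * a * b ^ 2 : F) = a * (2 * b ^ 2) by ring, C_mul (a := a)]
    ring
  rw [h1, h2]

theorem wm_zero (a b : ℕ → F) : wm a b 0 = 1 := rfl

theorem wm_succ (a b : ℕ → F) (n : ℕ) :
    wm a b (n + 1) = wm a b n * (mx (a n) * my (b n)) := rfl

theorem mul_entry (w z : Matrix (Fin 3) (Fin 3) F[X]) (i j : Fin 3) :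
    (w * z) i j = w i 0 * z 0 j + w i 1 * z 1 j + w i 2 * z 2 j := by
  rw [Matrix.mul_apply, Fin.sum_univ_three]

theorem wm_succ_0 (a b : ℕ → F) (n : ℕ) (i : Fin 3) : wm a b (n + 1) i 0 =
    wm a b n i 0 + wm a b n i 2 * (C (a n) * X ^ 2) := by
  rw [wm_succ, mx_mul_my, mul_entry]
  generalize wm a b n = w
  generalize C (a n) * (X : F[X]) ^ 2 = s
  generalize C (2 * b n) * (X : F[X]) ^ 1 = t
  simp

theorem wm_succ_1 (a b : ℕ → F) (n : ℕ) (i : Fin 3) : wm a b (n + 1) i 1 =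
    wm a b n i 0 * (C (2 * b n) * X ^ 1) + wm a b n i 1
      + wm a b n i 2 * (C (2 * a n * b n) * X ^ 3) := by
  rw [wm_succ, mx_mul_my, mul_entry]
  generalize wm a b n = w
  generalize C (2 * a n * b n) * (X : F[X]) ^ 3 = s
  generalize C (2 * b n) * (X : F[X]) ^ 1 = t
  simp

theorem wm_succ_2 (a b : ℕ → F) (n : ℕ) (i : Fin 3) : wm a b (n + 1) i 2 =
    wm a b n i 0 * (C (2 * b n ^ 2) * X ^ 2) + wm a b n i 1 * (C (2 * b n) * X ^ 1)
      + wm a b n i 2 + wm a b n i 2 * (C (2 * a n * b n ^ 2) * X ^ 4) := by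
  rw [wm_succ, mx_mul_my, mul_entry]
  generalize wm a b n = w
  generalize C (2 * a n * b n ^ 2) * (X : F[X]) ^ 4 = s
  generalize C (2 * b n) * (X : F[X]) ^ 1 = t
  generalize C (2 * b n ^ 2) * (X : F[X]) ^ 2 = u
  simp
  ring

theorem coeff_mul_CX (p : F[X]) (c : F) (k m : ℕ) :
    (p * (C c * X ^ k)).coeff m = if k ≤ m then p.coeff (m - k) * c else 0 := by
  rw [← mul_assoc, coeff_mul_X_pow']
  simp [coeff_mul_C]

/-- General degree bounds. -/
theorem wm_bound (a b : ℕ → F) (n : ℕ) (i : Fin 3) :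
    (∀ m, 4 * n + (i : ℕ) < m → (wm a b n i 0).coeff m = 0) ∧
    (∀ m, 4 * n + (i : ℕ) < m + 1 → (wm a b n i 1).coeff m = 0) ∧
    (∀ m, 4 * n + (i : ℕ) < m + 2 → (wm a b n i 2).coeff m = 0) := by
  induction n with
  | zero =>
    rw [wm_zero]
    refine ⟨?_, ?_, ?_⟩ <;> intro m hm
    · rw [Matrix.one_apply]
      split_ifs with h
      · subst h
        rw [coeff_one]
        simp at hm ⊢
        omega
      · simp
    · rw [Matrix.one_apply]
      split_ifs with h
      · subst h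
        rw [coeff_one]
        simp at hm ⊢
        omega
      · simp
    · rw [Matrix.one_apply]
      split_ifs with h
      · subst h
        rw [coeff_one]
        simp at hm ⊢
        omega
      · simp
  | succ n ih =>
    obtain ⟨h0, h1, h2⟩ := ih
    refine ⟨?_, ?_, ?_⟩ <;> intro m hm
    · rw [wm_succ_0, coeff_add, coeff_mul_CX, h0 m (by omega)]
      split_ifs with h
      · rw [h2 (m - 2) (by omega)]; simp
      · simp
    · rw [wm_succ_1, coeff_add, coeff_add, coeff_mul_CX, coeff_mul_CX, h1 m (by omega),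
        h0 (m - 1) (by omega)]
      split_ifs with h h' h'
      · rw [h2 (m - 3) (by omega)]; simp
      · simp
      · rw [h2 (m - 3) (by omega)]; simp
      · simp
    · rw [wm_succ_2, coeff_add, coeff_add, coeff_add, coeff_mul_CX, coeff_mul_CX, coeff_mul_CX,
        h2 m (by omega), h0 (m - 2) (by omega), h1 (m - 1) (by omega)]
      split_ifs with h h' h'
      all_goals try rw [h2 (m - 4) (by omega)]
      all_goals simp

/-- Sharper bounds for the last row, with the top coefficient. -/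
theorem wm_row (a b : ℕ → F) (n : ℕ) :
    (∀ m, 4 * n + 1 < m → (wm a b n 2 0).coeff m = 0) ∧
    (∀ m, 4 * n < m → (wm a b n 2 1).coeff m = 0) ∧
    (∀ m, 4 * n < m → (wm a b n 2 2).coeff m = 0) ∧
    (wm a b n 2 2).coeff (4 * n) = ∏ i ∈ Finset.range n, (2 * a i * b i ^ 2) := by
  induction n with
  | zero =>
    rw [wm_zero]
    refine ⟨?_, ?_, ?_, ?_⟩
    · intro m hm; simp
    · intro m hm; simp
    · intro m hm
      simp [coeff_one]
      omega
    · simp
  | succ n ih =>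
    obtain ⟨h0, h1, h2, h3⟩ := ih
    refine ⟨?_, ?_, ?_, ?_⟩
    · intro m hm
      rw [wm_succ_0, coeff_add, coeff_mul_CX, h0 m (by omega), h2 (m - 2) (by omega)]
      simp
    · intro m hm
      rw [wm_succ_1, coeff_add, coeff_add, coeff_mul_CX, coeff_mul_CX, h1 m (by omega),
        h0 (m - 1) (by omega), h2 (m - 3) (by omega)]
      simp
    · intro m hm
      rw [wm_succ_2, coeff_add, coeff_add, coeff_add, coeff_mul_CX, coeff_mul_CX, coeff_mul_CX,
        h2 m (by omega), h0 (m - 2) (by omega), h1 (m - 1) (by omega), h2 (m - 4) (by omega)]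
      simp
    · rw [wm_succ_2, coeff_add, coeff_add, coeff_add, coeff_mul_CX, coeff_mul_CX, coeff_mul_CX,
        h2 (4 * (n + 1)) (by omega), h0 (4 * (n + 1) - 2) (by omega),
        h1 (4 * (n + 1) - 1) (by omega), if_pos (by omega : 4 ≤ 4 * (n + 1)),
        show 4 * (n + 1) - 4 = 4 * n by omega, h3, Finset.prod_range_succ]
      simp

/-- The coefficient of `X ^ (4 n)` in the trace of a word. -/
theorem wm_trace (a b : ℕ → F) (n : ℕ) (hn : 1 ≤ n) :
    (Matrix.trace (wm a b n)).coeff (4 * n) = ∏ i ∈ Finset.range n, (2 * a i * b i ^ 2) := by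
  obtain ⟨n, rfl⟩ : ∃ n', n = n' + 1 := ⟨n - 1, by omega⟩
  rw [Matrix.trace_fin_three, coeff_add, coeff_add, (wm_row a b (n + 1)).2.2.2]
  obtain ⟨h0, -, h2⟩ := wm_bound a b n 0
  obtain ⟨k0, k1, k2⟩ := wm_bound a b n 1
  simp only [Fin.val_zero, Fin.val_one, add_zero] at h0 h2 k0 k1 k2
  rw [wm_succ_0, wm_succ_1, coeff_add, coeff_add, coeff_add, coeff_mul_CX, coeff_mul_CX,
    coeff_mul_CX, h0 _ (by omega), h2 (4 * (n + 1) - 2) (by omega), k1 _ (by omega),
    k0 (4 * (n + 1) - 1) (by omega), k2 (4 * (n + 1) - 3) (by omega)]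
  simp

/-- The antidiagonal matrix `(1, -1, 1)`. -/
noncomputable def mj : Matrix (Fin 3) (Fin 3) F[X] := !![0, 0, 1; 0, -1, 0; 1, 0, 0]

theorem mj_mul_mj : (mj : Matrix (Fin 3) (Fin 3) F[X]) * mj = 1 := by
  rw [mj, Matrix.mul_fin_three, Matrix.one_fin_three]
  simp

theorem adj_step (a b : F) :
    adjugate (mx a * my b) = mj * (mx (-a) * my b)ᵀ * mj := by
  have h2 : (2 : F[X]) = C (2 : F) := (map_ofNat C 2).symm
  have h : (C (2 * b) * (X : F[X]) ^ 1) ^ 2 = 2 * (C (2 * b ^ 2) * X ^ 2) := by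
    rw [h2, C_mul, C_mul, C_pow]
    ring
  have h' := gen_adj (C a * (X : F[X]) ^ 2) _ _ h
  rw [mx, my, mx, mj, h', C_neg, neg_mul]

theorem gen_J {R : Type*} [CommRing R] (J u v : Matrix (Fin 3) (Fin 3) R) (h : J * J = 1) :
    J * u * J * (J * v * J) = J * (u * v) * J := by
  calc J * u * J * (J * v * J) = J * u * (J * J) * v * J := by
        simp only [Matrix.mul_assoc]
    _ = J * (u * v) * J := by rw [h, Matrix.mul_one]; simp only [Matrix.mul_assoc]

theorem adj_wm (a b : ℕ → F) (n : ℕ) :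
    adjugate (wm a b n) = mj * (wm (fun i => -a i) b n)ᵀ * mj := by
  induction n with
  | zero =>
    rw [wm_zero, wm_zero, Matrix.adjugate_one, Matrix.transpose_one, Matrix.mul_one, mj_mul_mj]
  | succ n ih =>
    have hs : wm (fun i => -a i) b (n + 1) = wm (fun i => -a i) b n * (mx (-a n) * my (b n)) := rfl
    rw [wm_succ, hs, Matrix.adjugate_mul_distrib, ih, adj_step, gen_J _ _ _ mj_mul_mj,
      ← Matrix.transpose_mul]

theorem det_wm (a b : ℕ → F) (n : ℕ) : det (wm a b n) = 1 := by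
  induction n with
  | zero => simp [wm_zero]
  | succ n ih =>
    rw [wm_succ, Matrix.det_mul, ih, mx, my, gen_det, one_mul]

theorem gen_det_sub_one {R : Type*} [CommRing R] (w : Matrix (Fin 3) (Fin 3) R)
    (hw : det w = 1) :
    det (w - 1) = Matrix.trace w - Matrix.trace (adjugate w) := by
  have h1 : w - 1 = !![w 0 0 - 1, w 0 1, w 0 2; w 1 0, w 1 1 - 1, w 1 2;
      w 2 0, w 2 1, w 2 2 - 1] := by
    rw [Matrix.eta_fin_three (w - 1)]
    simp [Matrix.sub_apply]
  rw [h1, Matrix.det_fin_three, Matrix.trace_fin_three, Matrix.trace_fin_three,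
    Matrix.adjugate_fin_three]
  rw [Matrix.det_fin_three] at hw
  simp
  linear_combination hw

theorem det_wm_sub_one (a b : ℕ → F) (n : ℕ) :
    det (wm a b n - 1) = Matrix.trace (wm a b n) - Matrix.trace (wm (fun i => -a i) b n) := by
  rw [gen_det_sub_one _ (det_wm a b n), adj_wm, Matrix.trace_mul_comm, ← Matrix.mul_assoc, mj_mul_mj,
    Matrix.one_mul, Matrix.trace_transpose]

/-- **Main lemma**: an alternating word with an odd number `n` of nontrivial pairs is not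
congruent to `1` modulo `X ^ M` as soon as `4 n < 3 M`. -/
theorem wm_not_cong (h2 : (2 : F) ≠ 0) (a b : ℕ → F) (n : ℕ) (hn : Odd n)
    (ha : ∀ i, a i ≠ 0) (hb : ∀ i, b i ≠ 0) (M : ℕ) (hM : 4 * n < 3 * M)
    (hc : ∀ i j, X ^ M ∣ (wm a b n - 1) i j) : False := by
  choose B hB using hc
  have h1 : wm a b n - 1 = (X ^ M : F[X]) • (Matrix.of B) := by
    ext1 i j
    rw [hB]
    simp
  have h3 : det (wm a b n - 1) = X ^ (3 * M) * det (Matrix.of B) := by
    rw [h1, Matrix.det_smul]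
    simp [← pow_mul, mul_comm]
  have h4 : (det (wm a b n - 1)).coeff (4 * n) = 0 := by
    rw [h3, coeff_X_pow_mul', if_neg (by omega)]
  rw [det_wm_sub_one, coeff_sub, wm_trace _ _ _ hn.pos, wm_trace _ _ _ hn.pos] at h4
  have h5 : ∏ i ∈ Finset.range n, (2 * (-a i) * b i ^ 2)
      = - ∏ i ∈ Finset.range n, (2 * a i * b i ^ 2) := by
    have : ∀ i, 2 * (-a i) * b i ^ 2 = (-1) * (2 * a i * b i ^ 2) := fun i => by ring
    simp only [this]
    rw [Finset.prod_mul_distrib, Finset.prod_const, Finset.card_range, hn.neg_one_pow]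
    ring
  rw [h5, sub_neg_eq_add, ← two_mul] at h4
  have h6 : ∏ i ∈ Finset.range n, (2 * a i * b i ^ 2) ≠ 0 := by
    rw [Finset.prod_ne_zero_iff]
    intro i _
    exact mul_ne_zero (mul_ne_zero h2 (ha i)) (pow_ne_zero 2 (hb i))
  exact (mul_ne_zero h2 h6) h4

end H41EC
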